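import Mathlib

/-! Integer boxes and the cost of a binary space partition of integer seeds. -/

set_option autoImplicit false

namespace Pool.Agent.Helper4.BSPT

/-- The box `[a, b] × [l, r]` with integer coordinates. -/
structure IBox where
  a : ℤ
  b : ℤ
  l : ℤ
  r : ℤ

/-- The open boxes meet. -/
def IMeets (s K : IBox) : Prop := s.a < K.b ∧ K.a < s.b ∧ s.l < K.r ∧ K.l < s.r

/-- `n` integer boxes in `[1, 2n] × [1, 2n]`, any two strictly separated in one coordinate, such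
that all `2n` coordinates of vertical sides are distinct, and all `2n` coordinates of horizontal
sides are distinct. -/
structure Seeds (n : ℕ) (s : Fin n → IBox) : Prop where
  a1 : ∀ i, 1 ≤ (s i).a
  ab : ∀ i, (s i).a < (s i).b
  b1 : ∀ i, (s i).b ≤ 2 * n
  l1 : ∀ i, 1 ≤ (s i).l
  lr : ∀ i, (s i).l < (s i).r
  r1 : ∀ i, (s i).r ≤ 2 * n
  aa : ∀ i j, (s i).a = (s j).a → i = j
  bb : ∀ i j, (s i).b = (s j).b → i = j
  nab : ∀ i j, (s i).a ≠ (s j).b
  ll : ∀ i j, (s i).l = (s j).l → i = j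
  rr : ∀ i j, (s i).r = (s j).r → i = j
  nlr : ∀ i j, (s i).l ≠ (s j).r
  sep : ∀ i j, i ≠ j →
    (s i).b < (s j).a ∨ (s j).b < (s i).a ∨ (s i).r < (s j).l ∨ (s j).r < (s i).l

open Classical in
/-- `ICost s K c`: the part of the seeds in the box `K` can be separated by a binary space
partition which cuts at most `c` times a seed. -/
inductive ICost {n : ℕ} (s : Fin n → IBox) : IBox → ℕ → Prop
  | leaf (K : IBox) (c : ℕ) (h : ∀ i j, IMeets (s i) K → IMeets (s j) K → i = j) : ICost s K c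
  | vert (K : IBox) (x : ℤ) (c c1 c2 c3 : ℕ) (h1 : K.a < x) (h2 : x < K.b)
      (t1 : ICost s ⟨K.a, x, K.l, K.r⟩ c1) (t2 : ICost s ⟨x, K.b, K.l, K.r⟩ c2)
      (h3 : (Finset.univ.filter fun i => IMeets (s i) K ∧ (s i).a < x ∧ x < (s i).b).card ≤ c3)
      (h : c1 + c2 + c3 ≤ c) : ICost s K c
  | horiz (K : IBox) (y : ℤ) (c c1 c2 c3 : ℕ) (h1 : K.l < y) (h2 : y < K.r)
      (t1 : ICost s ⟨K.a, K.b, K.l, y⟩ c1) (t2 : ICost s ⟨K.a, K.b, y, K.r⟩ c2)
      (h3 : (Finset.univ.filter fun i => IMeets (s i) K ∧ (s i).l < y ∧ y < (s i).r).card ≤ c3)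
      (h : c1 + c2 + c3 ≤ c) : ICost s K c

theorem ICost.mono {n : ℕ} {s : Fin n → IBox} {K : IBox} {c c' : ℕ} (h : ICost s K c)
    (hc : c ≤ c') : ICost s K c' := by
  cases h with
  | leaf _ _ h => exact ICost.leaf K c' h
  | vert _ x _ c1 c2 c3 h1 h2 t1 t2 h3 h => exact ICost.vert K x c' c1 c2 c3 h1 h2 t1 t2 h3 (h.trans hc)
  | horiz _ y _ c1 c2 c3 h1 h2 t1 t2 h3 h =>
    exact ICost.horiz K y c' c1 c2 c3 h1 h2 t1 t2 h3 (h.trans hc)

end Pool.Agent.Helper4.BSPT
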