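import Pool.Agent.Helper4.BSPT.Defs
import Pool.Agent.Helper30.BSP.Defs

/-! From finite sets of pairwise disjoint rectangles to integer seeds with distinct coordinates. -/

set_option autoImplicit false

namespace Pool.Agent.Helper4.BSPT

open Pool.Agent.Helper30.BSP

/-- ranks of `2n` real numbers -/
theorem exists_rank (n : ℕ) (f : Fin n × Bool → ℝ) :
    ∃ (g : Fin n × Bool → ℤ) (v : ℤ → ℝ), Function.Injective g ∧
      (∀ p, 1 ≤ g p ∧ g p ≤ 2 * n) ∧ (∀ p, v (g p) = f p) ∧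
      ∀ i j : ℤ, 1 ≤ i → i ≤ j → j ≤ 2 * n → v i ≤ v j := by
  have hcard : Fintype.card (Fin n × Bool) = 2 * n := by
    simp [Fintype.card_prod, mul_comm]
  let e : Fin n × Bool ≃ Fin (2 * n) := Fintype.equivFinOfCardEq hcard
  let f' : Fin (2 * n) → ℝ := fun k => f (e.symm k)
  let σ : Equiv.Perm (Fin (2 * n)) := Tuple.sort f'
  have hσ : Monotone (f' ∘ σ) := Tuple.monotone_sort f'
  let v : ℤ → ℝ := fun k =>
    if h : 1 ≤ k ∧ k ≤ 2 * n then f' (σ ⟨(k - 1).toNat, by omega⟩) else 0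
  refine ⟨fun p => ((σ.symm (e p) : Fin (2 * n)) : ℕ) + 1, v, ?_, ?_, ?_, ?_⟩
  · intro p q h
    have h' : ((σ.symm (e p) : Fin (2 * n)) : ℕ) = ((σ.symm (e q) : Fin (2 * n)) : ℕ) := by
      simpa using h
    exact e.injective (σ.symm.injective (Fin.ext h'))
  · intro p
    have := (σ.symm (e p)).isLt
    constructor <;> push_cast <;> omega
  · intro p
    have hlt := (σ.symm (e p)).isLt
    have h : 1 ≤ (((σ.symm (e p) : Fin (2 * n)) : ℕ) : ℤ) + 1 ∧
        (((σ.symm (e p) : Fin (2 * n)) : ℕ) : ℤ) + 1 ≤ 2 * n := by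
      constructor <;> omega
    show v ((((σ.symm (e p) : Fin (2 * n)) : ℕ) : ℤ) + 1) = f p
    simp only [v]
    rw [dif_pos h]
    have h2 : (⟨((((σ.symm (e p) : Fin (2 * n)) : ℕ) : ℤ) + 1 - 1).toNat, by omega⟩ :
        Fin (2 * n)) = σ.symm (e p) := by
      apply Fin.ext
      simp
    rw [h2, Equiv.apply_symm_apply]
    show f (e.symm (e p)) = f p
    rw [Equiv.symm_apply_apply]
  · intro i j h1 h2 h3
    simp only [v]
    rw [dif_pos ⟨h1, h2.trans h3⟩, dif_pos ⟨h1.trans h2, h3⟩]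
    refine hσ ?_
    rw [Fin.mk_le_mk]
    omega

/-- the half line to the right of coordinate `a` -/
def lo (v : ℤ → ℝ) (a : ℤ) : Set ℝ := {x | 1 ≤ a → v a ≤ x}

/-- the half line to the left of coordinate `b` -/
def up (v : ℤ → ℝ) (n : ℕ) (b : ℤ) : Set ℝ := {x | b ≤ 2 * n → x ≤ v b}

theorem interior_lo (v : ℤ → ℝ) (a : ℤ) : interior (lo v a) = {x | 1 ≤ a → v a < x} := by
  by_cases h : 1 ≤ a
  · have : lo v a = Set.Ici (v a) := by ext x; simp [lo, h]
    rw [this, interior_Ici]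
    ext x; simp [h]
  · have : lo v a = Set.univ := by ext x; simp [lo, h]
    rw [this, interior_univ]
    ext x; simp [h]

theorem interior_up (v : ℤ → ℝ) (n : ℕ) (b : ℤ) :
    interior (up v n b) = {x | b ≤ 2 * n → x < v b} := by
  by_cases h : b ≤ 2 * n
  · have : up v n b = Set.Iic (v b) := by ext x; simp [up, h]
    rw [this, interior_Iic]
    ext x; simp [h]
  · have : up v n b = Set.univ := by ext x; simp [up, h]
    rw [this, interior_univ]
    ext x; simp [h]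

/-- the real cell of the integer box `K` -/
def cell (vx vy : ℤ → ℝ) (n : ℕ) (K : IBox) : Set (ℝ × ℝ) :=
  (lo vx K.a ∩ up vx n K.b) ×ˢ (lo vy K.l ∩ up vy n K.r)

theorem mem_int_cell (vx vy : ℤ → ℝ) (n : ℕ) (K : IBox) (p : ℝ × ℝ) :
    p ∈ interior (cell vx vy n K) ↔ (1 ≤ K.a → vx K.a < p.1) ∧ (K.b ≤ 2 * n → p.1 < vx K.b) ∧
      (1 ≤ K.l → vy K.l < p.2) ∧ (K.r ≤ 2 * n → p.2 < vy K.r) := by
  unfold cell
  rw [interior_prod_eq, interior_inter, interior_inter, interior_lo, interior_lo, interior_up,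
    interior_up]
  simp only [Set.mem_prod, Set.mem_inter_iff, Set.mem_ofPred_eq]
  tauto

theorem mem_cell (vx vy : ℤ → ℝ) (n : ℕ) (K : IBox) (p : ℝ × ℝ) :
    p ∈ cell vx vy n K ↔ (1 ≤ K.a → vx K.a ≤ p.1) ∧ (K.b ≤ 2 * n → p.1 ≤ vx K.b) ∧
      (1 ≤ K.l → vy K.l ≤ p.2) ∧ (K.r ≤ 2 * n → p.2 ≤ vy K.r) := by
  unfold cell lo up
  simp only [Set.mem_prod, Set.mem_inter_iff, Set.mem_ofPred_eq]
  tauto

theorem interior_rect (R : Rect) :
    interior R.toSet = Set.Ioo R.a1 R.b1 ×ˢ Set.Ioo R.a2 R.b2 := by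
  unfold Rect.toSet
  rw [interior_prod_eq, interior_Icc, interior_Icc]

/-- Everything about the passage to ranks. -/
structure Data (S : Finset Rect) (n : ℕ) (s : Fin n → IBox) where
  e : Fin n → Rect
  eS : ∀ i, e i ∈ S
  inj : Function.Injective e
  surj : ∀ R ∈ S, ∃ i, e i = R
  vx : ℤ → ℝ
  vy : ℤ → ℝ
  ha : ∀ i, vx (s i).a = (e i).a1
  hb : ∀ i, vx (s i).b = (e i).b1
  hl : ∀ i, vy (s i).l = (e i).a2
  hr : ∀ i, vy (s i).r = (e i).b2
  mx : ∀ i j : ℤ, 1 ≤ i → i ≤ j → j ≤ 2 * n → vx i ≤ vx j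
  my : ∀ i j : ℤ, 1 ≤ i → i ≤ j → j ≤ 2 * n → vy i ≤ vy j

section

variable {S : Finset Rect} {n : ℕ} {s : Fin n → IBox}

theorem Data.lt_x (D : Data S n s) {i j : ℤ} (hi : i ≤ 2 * n) (hj : 1 ≤ j)
    (h : D.vx i < D.vx j) : i < j := by
  by_contra hc
  exact absurd (D.mx j i hj (by omega) hi) (not_le.mpr h)

theorem Data.lt_y (D : Data S n s) {i j : ℤ} (hi : i ≤ 2 * n) (hj : 1 ≤ j)
    (h : D.vy i < D.vy j) : i < j := by
  by_contra hc
  exact absurd (D.my j i hj (by omega) hi) (not_le.mpr h)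

/-- a box inside the root box -/
def Inside (n : ℕ) (K : IBox) : Prop :=
  0 ≤ K.a ∧ K.a < K.b ∧ K.b ≤ 2 * n + 1 ∧ 0 ≤ K.l ∧ K.l < K.r ∧ K.r ≤ 2 * n + 1

theorem imeets_of_meets (D : Data S n s) (hs : Seeds n s) {K : IBox} (hK : Inside n K) (i : Fin n)
    (h : Meets (D.e i) (cell D.vx D.vy n K)) : IMeets (s i) K := by
  obtain ⟨p, hp1, hp2⟩ := h
  rw [interior_rect] at hp1
  obtain ⟨⟨q1, q2⟩, ⟨q3, q4⟩⟩ := hp1
  rw [mem_int_cell] at hp2
  obtain ⟨k1, k2, k3, k4⟩ := hp2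
  obtain ⟨z1, z2, z3, z4, z5, z6⟩ := hK
  have a1 := hs.a1 i
  have ab := hs.ab i
  have b1 := hs.b1 i
  have l1 := hs.l1 i
  have lr := hs.lr i
  have r1 := hs.r1 i
  refine ⟨?_, ?_, ?_, ?_⟩
  · by_cases hb : K.b ≤ 2 * n
    · refine D.lt_x (by omega) (by omega) ?_
      rw [D.ha]
      exact q1.trans (k2 hb)
    · omega
  · by_cases hb : 1 ≤ K.a
    · refine D.lt_x (by omega) (by omega) ?_
      rw [D.hb]
      exact (k1 hb).trans q2
    · omega
  · by_cases hb : K.r ≤ 2 * n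
    · refine D.lt_y (by omega) (by omega) ?_
      rw [D.hl]
      exact q3.trans (k4 hb)
    · omega
  · by_cases hb : 1 ≤ K.l
    · refine D.lt_y (by omega) (by omega) ?_
      rw [D.hr]
      exact (k3 hb).trans q4
    · omega

theorem meets_mono {R : Rect} {C C' : Set (ℝ × ℝ)} (h : C ⊆ C') (hm : Meets R C) : Meets R C' := by
  obtain ⟨p, hp1, hp2⟩ := hm
  exact ⟨p, hp1, interior_mono h hp2⟩

theorem isBSP_of_empty {C : Set (ℝ × ℝ)} (h : interior C = ∅) : IsBSP S .leaf C := by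
  intro R _ R' _ hm _
  obtain ⟨p, -, hp⟩ := hm
  rw [h] at hp
  exact hp.elim

open Classical in
theorem size_of_empty {C : Set (ℝ × ℝ)} (h : interior C = ∅) : size S .leaf C = 0 := by
  unfold size
  rw [Finset.card_eq_zero, Finset.filter_eq_empty_iff]
  intro R _ hm
  obtain ⟨p, -, hp⟩ := hm
  rw [h] at hp
  exact hp.elim

open Classical in
theorem card_bound (D : Data S n s) {C C1 C2 : Set (ℝ × ℝ)} (P : Fin n → Prop)
    [DecidablePred P] {c3 : ℕ}
    (h1 : C1 ⊆ C) (h2 : C2 ⊆ C)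
    (hP : ∀ i, Meets (D.e i) C1 → Meets (D.e i) C2 → P i)
    (hc : (Finset.univ.filter P).card ≤ c3) :
    (S.filter (fun R => Meets R C1)).card + (S.filter (fun R => Meets R C2)).card ≤
      (S.filter (fun R => Meets R C)).card + c3 := by
  rw [← Finset.card_union_add_card_inter]
  refine Nat.add_le_add (Finset.card_le_card ?_) (le_trans (Finset.card_le_card ?_)
    ((Finset.card_image_le (s := Finset.univ.filter P) (f := D.e)).trans hc))
  · intro R hR
    rw [Finset.mem_union, Finset.mem_filter, Finset.mem_filter] at hR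
    rw [Finset.mem_filter]
    rcases hR with ⟨hR, hm⟩ | ⟨hR, hm⟩
    · exact ⟨hR, meets_mono h1 hm⟩
    · exact ⟨hR, meets_mono h2 hm⟩
  · intro R hR
    rw [Finset.mem_inter, Finset.mem_filter, Finset.mem_filter] at hR
    obtain ⟨⟨hR, hm⟩, ⟨-, hm'⟩⟩ := hR
    obtain ⟨i, rfl⟩ := D.surj R hR
    rw [Finset.mem_image]
    exact ⟨i, by rw [Finset.mem_filter]; exact ⟨Finset.mem_univ _, hP i hm hm'⟩, rfl⟩

open Classical in
theorem main (D : Data S n s) (hs : Seeds n s) {K : IBox} {c : ℕ} (h : ICost s K c)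
    (hK : Inside n K) :
    ∃ T, IsBSP S T (cell D.vx D.vy n K) ∧ size S T (cell D.vx D.vy n K) ≤
      (S.filter (fun R => Meets R (cell D.vx D.vy n K))).card + c := by
  induction h with
  | leaf K c h =>
    refine ⟨.leaf, ?_, ?_⟩
    · intro R hR R' hR' hm hm'
      obtain ⟨i, rfl⟩ := D.surj R hR
      obtain ⟨j, rfl⟩ := D.surj R' hR'
      rw [h i j (imeets_of_meets D hs hK i hm) (imeets_of_meets D hs hK j hm')]
    · unfold size
      exact Nat.le_add_right _ _
  | vert K x c c1 c2 c3 h1 h2 t1 t2 h3 h ih1 ih2 =>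
    have hK' := hK
    obtain ⟨z1, z2, z3, z4, z5, z6⟩ := hK'
    have hK1 : Inside n ⟨K.a, x, K.l, K.r⟩ :=
      ⟨z1, h1, by show x ≤ 2 * (n : ℤ) + 1; omega, z4, z5, z6⟩
    have hK2 : Inside n ⟨x, K.b, K.l, K.r⟩ := ⟨by show 0 ≤ x; omega, h2, z3, z4, z5, z6⟩
    obtain ⟨T1, b1, s1⟩ := ih1 hK1
    obtain ⟨T2, b2, s2⟩ := ih2 hK2
    have x1 : 1 ≤ x := by omega
    have x2 : x ≤ 2 * n := by omega
    have e1 : cell D.vx D.vy n K ∩ {p | p.1 ≤ D.vx x} =
        cell D.vx D.vy n ⟨K.a, x, K.l, K.r⟩ := by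
      ext p
      rw [Set.mem_inter_iff, mem_cell, mem_cell]
      simp only [Set.mem_ofPred_eq]
      constructor
      · rintro ⟨⟨q1, q2, q3, q4⟩, q5⟩
        exact ⟨q1, fun _ => q5, q3, q4⟩
      · rintro ⟨q1, q2, q3, q4⟩
        exact ⟨⟨q1, fun hb => (q2 x2).trans (D.mx x K.b x1 h2.le hb), q3, q4⟩, q2 x2⟩
    have e2 : cell D.vx D.vy n K ∩ {p | D.vx x ≤ p.1} =
        cell D.vx D.vy n ⟨x, K.b, K.l, K.r⟩ := by
      ext p
      rw [Set.mem_inter_iff, mem_cell, mem_cell]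
      simp only [Set.mem_ofPred_eq]
      constructor
      · rintro ⟨⟨q1, q2, q3, q4⟩, q5⟩
        exact ⟨fun _ => q5, q2, q3, q4⟩
      · rintro ⟨q1, q2, q3, q4⟩
        exact ⟨⟨fun ha => (D.mx K.a x ha h1.le x2).trans (q1 x1), q2, q3, q4⟩, q1 x1⟩
    have hcb := card_bound D (fun i => IMeets (s i) K ∧ (s i).a < x ∧ x < (s i).b)
      (C := cell D.vx D.vy n K) (C1 := cell D.vx D.vy n ⟨K.a, x, K.l, K.r⟩)
      (C2 := cell D.vx D.vy n ⟨x, K.b, K.l, K.r⟩) (by rw [← e1]; exact Set.inter_subset_left)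
      (by rw [← e2]; exact Set.inter_subset_left) (by
        intro i m1 m2
        refine ⟨imeets_of_meets D hs hK i (meets_mono (by rw [← e1]; exact Set.inter_subset_left)
          m1), ?_, ?_⟩
        · exact (imeets_of_meets D hs hK1 i m1).1
        · exact (imeets_of_meets D hs hK2 i m2).2.1) h3
    by_cases hp : ∃ p ∈ interior (cell D.vx D.vy n K), p.1 = D.vx x
    · refine ⟨.vert (D.vx x) T1 T2, ⟨hp, ?_, ?_⟩, ?_⟩
      · rw [e1]; exact b1
      · rw [e2]; exact b2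
      · unfold size
        rw [e1, e2]
        omega
    · by_cases hne : (interior (cell D.vx D.vy n K)).Nonempty
      · obtain ⟨p, hpi⟩ := hne
        have hnot : ((D.vx x, p.2) : ℝ × ℝ) ∉ interior (cell D.vx D.vy n K) :=
          fun hh => hp ⟨_, hh, rfl⟩
        rw [mem_int_cell] at hpi hnot
        obtain ⟨k1, k2, k3, k4⟩ := hpi
        simp only at hnot
        have hor : (1 ≤ K.a ∧ D.vx x ≤ D.vx K.a) ∨ (K.b ≤ 2 * n ∧ D.vx K.b ≤ D.vx x) := by
          by_contra hcon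
          rw [not_or, not_and, not_and, not_le, not_le] at hcon
          exact hnot ⟨hcon.1, hcon.2, k3, k4⟩
        rcases hor with ⟨ha, hv⟩ | ⟨hb, hv⟩
        · have e3 : cell D.vx D.vy n ⟨x, K.b, K.l, K.r⟩ = cell D.vx D.vy n K := by
            rw [← e2]
            refine Set.inter_eq_left.mpr fun q hq => ?_
            rw [mem_cell] at hq
            exact hv.trans (hq.1 ha)
          rw [e3] at b2 s2
          exact ⟨T2, b2, by omega⟩
        · have e3 : cell D.vx D.vy n ⟨K.a, x, K.l, K.r⟩ = cell D.vx D.vy n K := by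
            rw [← e1]
            refine Set.inter_eq_left.mpr fun q hq => ?_
            rw [mem_cell] at hq
            exact (hq.2.1 hb).trans hv
          rw [e3] at b1 s1
          exact ⟨T1, b1, by omega⟩
      · rw [Set.not_nonempty_iff_eq_empty] at hne
        exact ⟨.leaf, isBSP_of_empty hne, by rw [size_of_empty hne]; exact Nat.zero_le _⟩
  | horiz K y c c1 c2 c3 h1 h2 t1 t2 h3 h ih1 ih2 =>
    have hK' := hK
    obtain ⟨z1, z2, z3, z4, z5, z6⟩ := hK'
    have hK1 : Inside n ⟨K.a, K.b, K.l, y⟩ :=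
      ⟨z1, z2, z3, z4, h1, by show y ≤ 2 * (n : ℤ) + 1; omega⟩
    have hK2 : Inside n ⟨K.a, K.b, y, K.r⟩ := ⟨z1, z2, z3, by show 0 ≤ y; omega, h2, z6⟩
    obtain ⟨T1, b1, s1⟩ := ih1 hK1
    obtain ⟨T2, b2, s2⟩ := ih2 hK2
    have x1 : 1 ≤ y := by omega
    have x2 : y ≤ 2 * n := by omega
    have e1 : cell D.vx D.vy n K ∩ {p | p.2 ≤ D.vy y} =
        cell D.vx D.vy n ⟨K.a, K.b, K.l, y⟩ := by
      ext p
      rw [Set.mem_inter_iff, mem_cell, mem_cell]
      simp only [Set.mem_ofPred_eq]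
      constructor
      · rintro ⟨⟨q1, q2, q3, q4⟩, q5⟩
        exact ⟨q1, q2, q3, fun _ => q5⟩
      · rintro ⟨q1, q2, q3, q4⟩
        exact ⟨⟨q1, q2, q3, fun hb => (q4 x2).trans (D.my y K.r x1 h2.le hb)⟩, q4 x2⟩
    have e2 : cell D.vx D.vy n K ∩ {p | D.vy y ≤ p.2} =
        cell D.vx D.vy n ⟨K.a, K.b, y, K.r⟩ := by
      ext p
      rw [Set.mem_inter_iff, mem_cell, mem_cell]
      simp only [Set.mem_ofPred_eq]
      constructor
      · rintro ⟨⟨q1, q2, q3, q4⟩, q5⟩
        exact ⟨q1, q2, fun _ => q5, q4⟩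
      · rintro ⟨q1, q2, q3, q4⟩
        exact ⟨⟨q1, q2, fun ha => (D.my K.l y ha h1.le x2).trans (q3 x1), q4⟩, q3 x1⟩
    have hcb := card_bound D (fun i => IMeets (s i) K ∧ (s i).l < y ∧ y < (s i).r)
      (C := cell D.vx D.vy n K) (C1 := cell D.vx D.vy n ⟨K.a, K.b, K.l, y⟩)
      (C2 := cell D.vx D.vy n ⟨K.a, K.b, y, K.r⟩) (by rw [← e1]; exact Set.inter_subset_left)
      (by rw [← e2]; exact Set.inter_subset_left) (by
        intro i m1 m2
        refine ⟨imeets_of_meets D hs hK i (meets_mono (by rw [← e1]; exact Set.inter_subset_left)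
          m1), ?_, ?_⟩
        · exact (imeets_of_meets D hs hK1 i m1).2.2.1
        · exact (imeets_of_meets D hs hK2 i m2).2.2.2) h3
    by_cases hp : ∃ p ∈ interior (cell D.vx D.vy n K), p.2 = D.vy y
    · refine ⟨.horiz (D.vy y) T1 T2, ⟨hp, ?_, ?_⟩, ?_⟩
      · rw [e1]; exact b1
      · rw [e2]; exact b2
      · unfold size
        rw [e1, e2]
        omega
    · by_cases hne : (interior (cell D.vx D.vy n K)).Nonempty
      · obtain ⟨p, hpi⟩ := hne
        have hnot : ((p.1, D.vy y) : ℝ × ℝ) ∉ interior (cell D.vx D.vy n K) :=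
          fun hh => hp ⟨_, hh, rfl⟩
        rw [mem_int_cell] at hpi hnot
        obtain ⟨k1, k2, k3, k4⟩ := hpi
        simp only at hnot
        have hor : (1 ≤ K.l ∧ D.vy y ≤ D.vy K.l) ∨ (K.r ≤ 2 * n ∧ D.vy K.r ≤ D.vy y) := by
          by_contra hcon
          rw [not_or, not_and, not_and, not_le, not_le] at hcon
          exact hnot ⟨k1, k2, hcon.1, hcon.2⟩
        rcases hor with ⟨ha, hv⟩ | ⟨hb, hv⟩
        · have e3 : cell D.vx D.vy n ⟨K.a, K.b, y, K.r⟩ = cell D.vx D.vy n K := by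
            rw [← e2]
            refine Set.inter_eq_left.mpr fun q hq => ?_
            rw [mem_cell] at hq
            exact hv.trans (hq.2.2.1 ha)
          rw [e3] at b2 s2
          exact ⟨T2, b2, by omega⟩
        · have e3 : cell D.vx D.vy n ⟨K.a, K.b, K.l, y⟩ = cell D.vx D.vy n K := by
            rw [← e1]
            refine Set.inter_eq_left.mpr fun q hq => ?_
            rw [mem_cell] at hq
            exact (hq.2.2.2 hb).trans hv
          rw [e3] at b1 s1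
          exact ⟨T1, b1, by omega⟩
      · rw [Set.not_nonempty_iff_eq_empty] at hne
        exact ⟨.leaf, isBSP_of_empty hne, by rw [size_of_empty hne]; exact Nat.zero_le _⟩

end

/-- The reduction of a finite set of pairwise disjoint rectangles to integer seeds. -/
theorem exists_data (S : Finset Rect)
    (hS : ∀ R ∈ S, ∀ R' ∈ S, R ≠ R' → Disjoint R.toSet R'.toSet) :
    ∃ (s : Fin S.card → IBox), Seeds S.card s ∧ Nonempty (Data S S.card s) := by
  classical
  set n := S.card with hn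
  let e : Fin n ≃ S := S.equivFin.symm
  obtain ⟨gx, vx, ix, bx, cx, mx⟩ := exists_rank n
    (fun p => if p.2 then (e p.1).1.b1 else (e p.1).1.a1)
  obtain ⟨gy, vy, iy, by', cy, my⟩ := exists_rank n
    (fun p => if p.2 then (e p.1).1.b2 else (e p.1).1.a2)
  have lx : ∀ p q, vx (gx p) < vx (gx q) → gx p < gx q := by
    intro p q h
    by_contra hc
    exact absurd (mx _ _ (bx q).1 (not_lt.mp hc) (bx p).2) (not_le.mpr h)
  have ly : ∀ p q, vy (gy p) < vy (gy q) → gy p < gy q := by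
    intro p q h
    by_contra hc
    exact absurd (my _ _ (by' q).1 (not_lt.mp hc) (by' p).2) (not_le.mpr h)
  have vxa : ∀ i, vx (gx (i, false)) = (e i).1.a1 := fun i => by rw [cx]; simp
  have vxb : ∀ i, vx (gx (i, true)) = (e i).1.b1 := fun i => by rw [cx]; simp
  have vya : ∀ i, vy (gy (i, false)) = (e i).1.a2 := fun i => by rw [cy]; simp
  have vyb : ∀ i, vy (gy (i, true)) = (e i).1.b2 := fun i => by rw [cy]; simp
  refine ⟨fun i => ⟨gx (i, false), gx (i, true), gy (i, false), gy (i, true)⟩, ?_, ⟨?_⟩⟩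
  · refine ⟨fun i => (bx _).1, fun i => ?_, fun i => (bx _).2, fun i => (by' _).1, fun i => ?_,
      fun i => (by' _).2, fun i j h => ?_, fun i j h => ?_, fun i j h => ?_, fun i j h => ?_,
      fun i j h => ?_, fun i j h => ?_, fun i j h => ?_⟩
    · refine lx _ _ ?_
      rw [vxa, vxb]; exact (e i).1.lt1
    · refine ly _ _ ?_
      rw [vya, vyb]; exact (e i).1.lt2
    · exact (Prod.mk.injEq _ _ _ _ ▸ ix h).1
    · exact (Prod.mk.injEq _ _ _ _ ▸ ix h).1
    · have := ix h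
      simp at this
    · exact (Prod.mk.injEq _ _ _ _ ▸ iy h).1
    · exact (Prod.mk.injEq _ _ _ _ ▸ iy h).1
    · have := iy h
      simp at this
    · have hne : (e i).1 ≠ (e j).1 := fun hh => h (e.injective (Subtype.ext hh))
      have hd := hS _ (e i).2 _ (e j).2 hne
      by_contra hcon
      rw [not_or, not_or, not_or] at hcon
      obtain ⟨c1, c2, c3, c4⟩ := hcon
      have d1 : (e j).1.a1 ≤ (e i).1.b1 := by
        by_contra hh
        refine c1 (lx _ _ ?_)
        rw [vxb, vxa]; exact not_le.mp hh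
      have d2 : (e i).1.a1 ≤ (e j).1.b1 := by
        by_contra hh
        refine c2 (lx _ _ ?_)
        rw [vxb, vxa]; exact not_le.mp hh
      have d3 : (e j).1.a2 ≤ (e i).1.b2 := by
        by_contra hh
        refine c3 (ly _ _ ?_)
        rw [vyb, vya]; exact not_le.mp hh
      have d4 : (e i).1.a2 ≤ (e j).1.b2 := by
        by_contra hh
        refine c4 (ly _ _ ?_)
        rw [vyb, vya]; exact not_le.mp hh
      have m1 : ((max (e i).1.a1 (e j).1.a1, max (e i).1.a2 (e j).1.a2) : ℝ × ℝ) ∈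
          (e i).1.toSet := ⟨⟨le_max_left _ _, max_le (e i).1.lt1.le d1⟩,
          ⟨le_max_left _ _, max_le (e i).1.lt2.le d3⟩⟩
      have m2 : ((max (e i).1.a1 (e j).1.a1, max (e i).1.a2 (e j).1.a2) : ℝ × ℝ) ∈
          (e j).1.toSet := ⟨⟨le_max_right _ _, max_le d2 (e j).1.lt1.le⟩,
          ⟨le_max_right _ _, max_le d4 (e j).1.lt2.le⟩⟩
      exact Set.disjoint_left.mp hd m1 m2
  · exact
      { e := fun i => (e i).1
        eS := fun i => (e i).2
        inj := fun i j h => e.injective (Subtype.ext h)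
        surj := fun R hR => ⟨e.symm ⟨R, hR⟩, by rw [Equiv.apply_symm_apply]⟩
        vx := vx
        vy := vy
        ha := vxa
        hb := vxb
        hl := vya
        hr := vyb
        mx := mx
        my := my }

/-- The reduction of the theorem to integer seeds with distinct coordinates. -/
theorem transfer (S : Finset Rect)
    (hS : ∀ R ∈ S, ∀ R' ∈ S, R ≠ R' → Disjoint R.toSet R'.toSet) :
    ∃ s : Fin S.card → IBox, Seeds S.card s ∧
      ∀ c, ICost s ⟨0, 2 * S.card + 1, 0, 2 * S.card + 1⟩ c →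
        ∃ T, IsBSP S T Set.univ ∧ size S T Set.univ ≤ S.card + c := by
  classical
  obtain ⟨s, hs, ⟨D⟩⟩ := exists_data S hS
  refine ⟨s, hs, fun c hc => ?_⟩
  have hK : Inside S.card ⟨0, 2 * S.card + 1, 0, 2 * S.card + 1⟩ := by
    refine ⟨le_rfl, ?_, le_rfl, le_rfl, ?_, le_rfl⟩ <;> show (0 : ℤ) < 2 * S.card + 1 <;> omega
  obtain ⟨T, h1, h2⟩ := main D hs hc hK
  have e : cell D.vx D.vy S.card ⟨0, 2 * S.card + 1, 0, 2 * S.card + 1⟩ = Set.univ := by
    ext p
    rw [mem_cell]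
    simp only [Set.mem_univ, iff_true]
    exact ⟨fun h => by omega, fun h => by omega, fun h => by omega, fun h => by omega⟩
  rw [e] at h1 h2
  exact ⟨T, h1, h2.trans (Nat.add_le_add_right (Finset.card_filter_le _ _) _)⟩

end Pool.Agent.Helper4.BSPT
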